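import Pool.Agent.Lib.MP_cd3201_co.Int.TwoSq

/-!
# Lattice triangles with a given circumradius and a given vertex

For vectors `b, c ∈ ℤ²` with `t = b × c ≠ 0` the triangle `0, b, c` has
`(2R)² = |b|² |c|² |b - c|² / t²`. If this number is `A / B` then the cotangents of the angles at
`0` and at `b` are `p / q` with `p² + q² ∣ A`, because `|b - c|² = (2R)² q² / (p² + q²)` is an
integer. Hence there are few such triangles.
-/

set_option autoImplicit false

open Finset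

namespace Pool.Agent.Lib.MP_cd3201_co.Fibre

open TwoSq

/-- cross product -/
def cr (b c : V) : ℤ := b.1 * c.2 - b.2 * c.1

/-- dot product -/
def dt (b c : V) : ℤ := b.1 * c.1 + b.2 * c.2

theorem lagrange (b c : V) : dt b c ^ 2 + cr b c ^ 2 = nsq b * nsq c := by
  unfold dt cr nsq; ring

/-- the primitive vector proportional to `(dot, cross)` -/
theorem exists_ang (b c : V) (h : cr b c ≠ 0) : ∃ (v : V) (g : ℤ), 0 < g ∧
    dt b c = v.1 * g ∧ cr b c = v.2 * g ∧ IsCoprime v.1 v.2 ∧ v.2 ≠ 0 := by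
  have hpos : 0 < Int.gcd (dt b c) (cr b c) := Int.gcd_pos_of_ne_zero_right _ h
  obtain ⟨x, y, hxy, h1, h2⟩ := Int.exists_gcd_one hpos
  refine ⟨(x, y), (Int.gcd (dt b c) (cr b c) : ℕ), by exact_mod_cast hpos, h1, h2,
    Int.isCoprime_iff_gcd_eq_one.mpr hxy, ?_⟩
  rintro h0
  simp only at h0
  rw [h0, zero_mul] at h2
  exact h h2

theorem ang_dvd {b c v : V} {g N A B : ℤ} (hg : 0 < g) (h1 : dt b c = v.1 * g)
    (h2 : cr b c = v.2 * g) (hcop : IsCoprime v.1 v.2)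
    (h : B * (nsq b * nsq c * N) = A * cr b c ^ 2) : nsq v ∣ A := by
  have h3 : nsq v * g ^ 2 = nsq b * nsq c := by
    rw [← lagrange, h1, h2]; unfold nsq; ring
  have h4 : B * nsq v * N = A * v.2 ^ 2 := by
    have h5 : (B * nsq v * N) * g ^ 2 = (A * v.2 ^ 2) * g ^ 2 := by
      calc (B * nsq v * N) * g ^ 2 = B * ((nsq v * g ^ 2) * N) := by ring
        _ = A * cr b c ^ 2 := by rw [h3, h]
        _ = (A * v.2 ^ 2) * g ^ 2 := by rw [h2]; ring
    exact mul_right_cancel₀ (pow_ne_zero 2 hg.ne') h5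
  have h6 : nsq v ∣ A * v.2 ^ 2 := ⟨B * N, by rw [← h4]; ring⟩
  have h7 : IsCoprime (nsq v) (v.2 ^ 2) := by
    unfold nsq
    have h8 : IsCoprime (v.1 ^ 2) (v.2 ^ 2) := hcop.pow
    have h9 : v.1 ^ 2 + v.2 ^ 2 = v.1 ^ 2 + v.2 ^ 2 * 1 := by ring
    rw [h9]
    exact IsCoprime.add_mul_left_left_iff.mpr h8
  exact h7.dvd_of_dvd_mul_right h6

theorem nsq_pos {b c : V} (h : cr b c ≠ 0) : 0 < nsq b := by
  have h0 : 0 ≤ nsq b := by unfold nsq; positivity
  rcases h0.eq_or_lt with h1 | h1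
  · exfalso
    apply h
    unfold nsq at h1
    have h2 : b.1 = 0 := by nlinarith [sq_nonneg b.1, sq_nonneg b.2]
    have h3 : b.2 = 0 := by nlinarith [sq_nonneg b.1, sq_nonneg b.2]
    unfold cr
    rw [h2, h3]; ring
  · exact h1

theorem dt_sub (b c : V) : dt b (b - c) = nsq b - dt b c := by
  unfold dt nsq; simp only [Prod.fst_sub, Prod.snd_sub]; ring

theorem cr_sub (b c : V) : cr b (b - c) = -cr b c := by
  unfold cr; simp only [Prod.fst_sub, Prod.snd_sub]; ring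

/-- the two angles determine `|b|²` -/
theorem nsq_eq {b c v w : V} {g k A B : ℤ} (hg : 0 < g) (hk : 0 < k)
    (h1 : dt b c = v.1 * g) (h2 : cr b c = v.2 * g) (h3 : dt b (b - c) = w.1 * k)
    (h4 : cr b (b - c) = w.2 * k) (hb : 0 < nsq b)
    (h : B * (nsq b * nsq c * nsq (b - c)) = A * cr b c ^ 2) :
    B * nsq b * (nsq v * nsq w) = A * (v.1 * w.2 - w.1 * v.2) ^ 2 := by
  have l1 : nsq v * g ^ 2 = nsq b * nsq c := by
    rw [← lagrange, h1, h2]; unfold nsq; ring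
  have l2 : nsq w * k ^ 2 = nsq b * nsq (b - c) := by
    rw [← lagrange, h3, h4]; unfold nsq; ring
  have l3 : nsq b * cr b c = - (v.1 * w.2 - w.1 * v.2) * (g * k) := by
    have e1 : nsq b = v.1 * g + w.1 * k := by
      rw [← h1, ← h3, dt_sub]; ring
    have e2 : v.2 * g = -(w.2 * k) := by rw [← h2, ← h4, cr_sub]; ring
    rw [e1, h2]
    linear_combination (v.1 * g) * e2
  have hgk : (g * k) ^ 2 ≠ 0 := pow_ne_zero 2 (mul_pos hg hk).ne'
  have hb2 : nsq b ≠ 0 := hb.ne'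
  apply mul_right_cancel₀ hgk
  calc B * nsq b * (nsq v * nsq w) * (g * k) ^ 2
      = B * nsq b * ((nsq v * g ^ 2) * (nsq w * k ^ 2)) := by ring
    _ = (B * (nsq b * nsq c * nsq (b - c))) * nsq b ^ 2 := by rw [l1, l2]; ring
    _ = A * (nsq b * cr b c) ^ 2 := by rw [h]; ring
    _ = A * (v.1 * w.2 - w.1 * v.2) ^ 2 * (g * k) ^ 2 := by rw [l3]; ring

/-- the two angles and `b` determine `c` -/
theorem c_eq {b c c' v w : V} {g k g' k' : ℤ} (hv2 : v.2 ≠ 0) (hw2 : w.2 ≠ 0)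
    (h1 : dt b c = v.1 * g) (h2 : cr b c = v.2 * g) (h3 : dt b (b - c) = w.1 * k)
    (h4 : cr b (b - c) = w.2 * k)
    (h1' : dt b c' = v.1 * g') (h2' : cr b c' = v.2 * g') (h3' : dt b (b - c') = w.1 * k')
    (h4' : cr b (b - c') = w.2 * k') (hb : 0 < nsq b) : c = c' := by
  -- `t (v₁ w₂ - w₁ v₂) = nsq b v₂ w₂`
  have key : ∀ (c : V) (g k : ℤ), dt b c = v.1 * g → cr b c = v.2 * g →
      dt b (b - c) = w.1 * k → cr b (b - c) = w.2 * k →
      cr b c * (v.1 * w.2 - w.1 * v.2 * (-1) * (-1)) = nsq b * (v.2 * w.2) := by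
    intro c g k h1 h2 h3 h4
    have e1 : nsq b = v.1 * g + w.1 * k := by
      rw [← h1, ← h3, dt_sub]; ring
    have e2 : v.2 * g = -(w.2 * k) := by rw [← h2, ← h4, cr_sub]; ring
    rw [e1, h2]
    linear_combination (w.1 * v.2) * e2 * (-1)
  have k1 := key c g k h1 h2 h3 h4
  have k2 := key c' g' k' h1' h2' h3' h4'
  have hne : v.1 * w.2 - w.1 * v.2 * (-1) * (-1) ≠ 0 := by
    intro h0
    rw [h0, mul_zero] at k1
    exact (mul_ne_zero hb.ne' (mul_ne_zero hv2 hw2)) k1.symm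
  have ht : cr b c = cr b c' := mul_right_cancel₀ hne (k1.trans k2.symm)
  have hgg : g = g' := by
    have : v.2 * g = v.2 * g' := by rw [← h2, ← h2', ht]
    exact mul_left_cancel₀ hv2 this
  have hd : dt b c = dt b c' := by rw [h1, h1', hgg]
  have r1 : ∀ c : V, nsq b * c.1 = b.1 * dt b c - b.2 * cr b c := by
    intro c; unfold nsq dt cr; ring
  have r2 : ∀ c : V, nsq b * c.2 = b.2 * dt b c + b.1 * cr b c := by
    intro c; unfold nsq dt cr; ring
  ext
  · apply mul_left_cancel₀ hb.ne'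
    rw [r1, r1, hd, ht]
  · apply mul_left_cancel₀ hb.ne'
    rw [r2, r2, hd, ht]

/-- few pairs `(b, c)` have a given circumradius -/
theorem card_fibre (S : Finset (V × V)) (A B : ℕ) (hA : 0 < A) (hB : 0 < B) (E : ℕ)
    (hS : ∀ x ∈ S, cr x.1 x.2 ≠ 0 ∧
      (B : ℤ) * (nsq x.1 * nsq x.2 * nsq (x.1 - x.2)) = A * cr x.1 x.2 ^ 2)
    (hE : ∀ x ∈ S, (nsq x.1).toNat.divisors.card ≤ E) :
    S.card ≤ (12 * E ^ 2) * (12 * A.divisors.card ^ 2) ^ 2 := by
  classical
  have hex : ∀ x : V × V, ∃ (v w : V) (g k : ℤ), x ∈ S → (0 < g ∧ 0 < k ∧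
      dt x.1 x.2 = v.1 * g ∧ cr x.1 x.2 = v.2 * g ∧ dt x.1 (x.1 - x.2) = w.1 * k ∧
      cr x.1 (x.1 - x.2) = w.2 * k ∧ v ∈ prim A ∧ w ∈ prim A ∧ v.2 ≠ 0 ∧ w.2 ≠ 0) := by
    intro x
    by_cases hx : x ∈ S
    · obtain ⟨h1, h2⟩ := hS x hx
      obtain ⟨v, g, hg, a1, a2, a3, a4⟩ := exists_ang x.1 x.2 h1
      have h1' : cr x.1 (x.1 - x.2) ≠ 0 := by rw [cr_sub]; exact neg_ne_zero.mpr h1
      obtain ⟨w, k, hk, b1, b2, b3, b4⟩ := exists_ang x.1 (x.1 - x.2) h1'
      refine ⟨v, w, g, k, fun _ => ⟨hg, hk, a1, a2, b1, b2, ?_, ?_, a4, b4⟩⟩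
      · exact (mem_prim hA).mpr ⟨ang_dvd hg a1 a2 a3 h2, a3⟩
      · refine (mem_prim hA).mpr ⟨ang_dvd (N := nsq x.2) (B := B) hk b1 b2 b3 ?_, b3⟩
        rw [cr_sub, neg_sq, ← h2]
        ring
    · exact ⟨0, 0, 0, 0, fun h => absurd h hx⟩
  choose v w g k hf using hex
  set f : V × V → V × V := fun x => (v x, w x) with hfdef
  have himg : S.image f ⊆ prim A ×ˢ prim A := by
    intro y hy
    rw [mem_image] at hy
    obtain ⟨x, hx, rfl⟩ := hy
    obtain ⟨_, _, _, _, _, _, h1, h2, _⟩ := hf x hx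
    exact mem_product.mpr ⟨h1, h2⟩
  have hfib : ∀ y ∈ S.image f, (S.filter (fun x => f x = y)).card ≤ 12 * E ^ 2 := by
    intro y hy
    rw [mem_image] at hy
    obtain ⟨x₀, hx₀, rfl⟩ := hy
    obtain ⟨g0, k0, p1, p2, p3, p4, p5, p6, p7, p8⟩ := hf x₀ hx₀
    have hb0 : 0 < nsq x₀.1 := nsq_pos (hS x₀ hx₀).1
    obtain ⟨m, hm⟩ := Int.eq_ofNat_of_zero_le hb0.le
    have hm0 : 0 < m := by
      rw [hm] at hb0; exact_mod_cast hb0
    have e0 := nsq_eq g0 k0 p1 p2 p3 p4 hb0 (hS x₀ hx₀).2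
    have hvpos : ∀ u : V, u.2 ≠ 0 → 0 < nsq u := by
      intro u hu
      unfold nsq
      have := sq_nonneg u.1
      have := sq_pos_of_ne_zero hu
      linarith
    -- all elements of the fibre have the same `|b|²`
    have hsame : ∀ x ∈ S.filter (fun x => f x = f x₀), nsq x.1 = m := by
      intro x hx
      rw [mem_filter] at hx
      obtain ⟨hxS, hxf⟩ := hx
      obtain ⟨g1, k1, q1, q2, q3, q4, q5, q6, q7, q8⟩ := hf x hxS
      have hb1 : 0 < nsq x.1 := nsq_pos (hS x hxS).1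
      have e1 := nsq_eq g1 k1 q1 q2 q3 q4 hb1 (hS x hxS).2
      have hv : v x = v x₀ := congrArg Prod.fst hxf
      have hw : w x = w x₀ := congrArg Prod.snd hxf
      rw [hv, hw, ← e0] at e1
      have hpos : (0 : ℤ) < nsq (v x₀) * nsq (w x₀) := mul_pos (hvpos _ p7) (hvpos _ p8)
      have hBz : (B : ℤ) ≠ 0 := by exact_mod_cast hB.ne'
      have e2 := mul_left_cancel₀ hBz (mul_right_cancel₀ hpos.ne' e1)
      rw [e2, hm]
    have hinj : Set.InjOn Prod.fst (S.filter (fun x => f x = f x₀) : Set (V × V)) := by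
      intro x hx y hy hxy
      have hx' : x ∈ S.filter (fun x => f x = f x₀) := hx
      have hy' : y ∈ S.filter (fun x => f x = f x₀) := hy
      rw [mem_filter] at hx' hy'
      obtain ⟨g1, k1, q1, q2, q3, q4, q5, q6, q7, q8⟩ := hf x hx'.1
      obtain ⟨g2, k2, r1, r2, r3, r4, r5, r6, r7, r8⟩ := hf y hy'.1
      have hvx : v x = v x₀ := congrArg Prod.fst hx'.2
      have hwx : w x = w x₀ := congrArg Prod.snd hx'.2
      have hvy : v y = v x₀ := congrArg Prod.fst hy'.2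
      have hwy : w y = w x₀ := congrArg Prod.snd hy'.2
      rw [hvx] at q1 q2 q7
      rw [hwx] at q3 q4 q8
      rw [hvy] at r1 r2
      rw [hwy] at r3 r4
      rw [← hxy] at r1 r2 r3 r4
      have := c_eq q7 q8 q1 q2 q3 q4 r1 r2 r3 r4 (nsq_pos (hS x hx'.1).1)
      exact Prod.ext hxy this
    calc (S.filter (fun x => f x = f x₀)).card =
          ((S.filter (fun x => f x = f x₀)).image Prod.fst).card :=
            (card_image_of_injOn hinj).symm
      _ ≤ (reps m).card := by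
          apply card_le_card
          intro b hb
          rw [mem_image] at hb
          obtain ⟨x, hx, rfl⟩ := hb
          exact mem_reps.mpr (hsame x hx)
      _ ≤ 12 * m.divisors.card ^ 2 := card_reps m hm0
      _ ≤ 12 * E ^ 2 := by
          have h1 := hE x₀ hx₀
          rw [hm] at h1
          have h2 : ((m : ℤ)).toNat = m := Int.toNat_natCast m
          have h3 : m.divisors.card ≤ E := by rw [← h2]; exact h1
          exact Nat.mul_le_mul_left 12 (Nat.pow_le_pow_left h3 2)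
  calc S.card ≤ (12 * E ^ 2) * (S.image f).card :=
        card_le_mul_card_image (s := S) (f := f) _ hfib
    _ ≤ (12 * E ^ 2) * ((prim A) ×ˢ (prim A)).card := Nat.mul_le_mul_left _ (card_le_card himg)
    _ ≤ (12 * E ^ 2) * (12 * A.divisors.card ^ 2) ^ 2 := by
        apply Nat.mul_le_mul_left
        rw [card_product, ← pow_two]
        exact Nat.pow_le_pow_left (card_prim A hA) 2

end Pool.Agent.Lib.MP_cd3201_co.Fibre
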