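import Pool.Agent.Lib.MP_cd3201_co.Int.Fibre
import Pool.Agent.Lib.MP_cd3201_co.Radii

/-!
# Integer points in general position have many circumradii

Every `n`-point set in general position in `{-M..M}²` has at least `c n² / M^ε` circumradii.
-/

set_option autoImplicit false

open Finset

namespace Pool.Agent.Lib.MP_cd3201_co.Lower

open TwoSq Fibre

/-- the points of the plane with integer coordinates of absolute value at most `M` -/
def InBox (M : ℕ) (p : Plane) : Prop := ∃ a b : ℤ, |a| ≤ M ∧ |b| ≤ M ∧ p 0 = a ∧ p 1 = b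

/-- `(2R)² (b × c)² = |b|² |c|² |b - c|²` -/
theorem circum_formula {a p p' : Plane} {r : ℝ} (h : IsCircumradius {a, p, p'} r)
    {b c : V} (hb0 : p 0 - a 0 = b.1) (hb1 : p 1 - a 1 = b.2) (hc0 : p' 0 - a 0 = c.1)
    (hc1 : p' 1 - a 1 = c.2) :
    4 * r ^ 2 * (cr b c : ℝ) ^ 2 = ((nsq b * nsq c * nsq (b - c) : ℤ) : ℝ) := by
  obtain ⟨o, ho⟩ := h
  have h1 := sq_dist_eq a o
  have h2 := sq_dist_eq p o
  have h3 := sq_dist_eq p' o
  rw [ho a (by simp)] at h1
  rw [ho p (by simp)] at h2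
  rw [ho p' (by simp)] at h3
  have ep0 : p 0 = a 0 + b.1 := by linarith
  have ep1 : p 1 = a 1 + b.2 := by linarith
  have ep0' : p' 0 = a 0 + c.1 := by linarith
  have ep1' : p' 1 = a 1 + c.2 := by linarith
  rw [ep0, ep1] at h2
  rw [ep0', ep1'] at h3
  set u : ℝ := o 0 - a 0 with hu
  set v : ℝ := o 1 - a 1 with hv
  have e1 : r ^ 2 = u ^ 2 + v ^ 2 := by rw [h1, hu, hv]; ring
  have e2 : 2 * (u * b.1 + v * b.2) = (b.1 : ℝ) ^ 2 + (b.2 : ℝ) ^ 2 := by
    have : r ^ 2 = (b.1 - u) ^ 2 + (b.2 - v) ^ 2 := by rw [h2, hu, hv]; ring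
    linarith
  have e3 : 2 * (u * c.1 + v * c.2) = (c.1 : ℝ) ^ 2 + (c.2 : ℝ) ^ 2 := by
    have : r ^ 2 = (c.1 - u) ^ 2 + (c.2 - v) ^ 2 := by rw [h3, hu, hv]; ring
    linarith
  have f1 : 2 * u * ((b.1 : ℝ) * c.2 - b.2 * c.1) =
      ((b.1 : ℝ) ^ 2 + (b.2 : ℝ) ^ 2) * c.2 - ((c.1 : ℝ) ^ 2 + (c.2 : ℝ) ^ 2) * b.2 := by
    rw [← e2, ← e3]; ring
  have f2 : 2 * v * ((b.1 : ℝ) * c.2 - b.2 * c.1) =
      ((c.1 : ℝ) ^ 2 + (c.2 : ℝ) ^ 2) * b.1 - ((b.1 : ℝ) ^ 2 + (b.2 : ℝ) ^ 2) * c.1 := by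
    rw [← e2, ← e3]; ring
  unfold cr nsq
  simp only [Prod.fst_sub, Prod.snd_sub]
  push_cast
  calc 4 * r ^ 2 * ((b.1 : ℝ) * c.2 - b.2 * c.1) ^ 2 =
      (2 * u * ((b.1 : ℝ) * c.2 - b.2 * c.1)) ^ 2 +
        (2 * v * ((b.1 : ℝ) * c.2 - b.2 * c.1)) ^ 2 := by rw [e1]; ring
    _ = _ := by rw [f1, f2]; ring

theorem cr_ne_zero {a p p' : Plane} (hcol : ¬ Collinear ℝ ({a, p, p'} : Set Plane))
    {b c : V} (hb0 : p 0 - a 0 = b.1) (hb1 : p 1 - a 1 = b.2) (hc0 : p' 0 - a 0 = c.1)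
    (hc1 : p' 1 - a 1 = c.2) : cr b c ≠ 0 := by
  intro h0
  apply hcol
  have h1 : (p 0 - a 0) * (p' 1 - a 1) - (p 1 - a 1) * (p' 0 - a 0) = 0 := by
    rw [hb0, hb1, hc0, hc1]
    have : ((cr b c : ℤ) : ℝ) = 0 := by rw [h0]; simp
    unfold cr at this
    push_cast at this
    exact this
  rw [collinear_iff_of_mem (p₀ := a) (by simp)]
  by_cases hp : p = a
  · refine ⟨p' - a, ?_⟩
    intro x hx
    simp only [Set.mem_insert_iff, Set.mem_singleton_iff] at hx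
    rcases hx with rfl | rfl | rfl
    · exact ⟨0, by simp⟩
    · exact ⟨0, by simp [hp]⟩
    · exact ⟨1, by simp⟩
  · refine ⟨p - a, ?_⟩
    intro x hx
    simp only [Set.mem_insert_iff, Set.mem_singleton_iff] at hx
    rcases hx with rfl | rfl | rfl
    · exact ⟨0, by simp⟩
    · exact ⟨1, by simp⟩
    · -- `p' = a + s (p - a)`
      by_cases hz : p 0 - a 0 = 0
      · have hz1 : p 1 - a 1 ≠ 0 := by
          intro hz1
          apply hp
          ext i
          fin_cases i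
          · simp only [Fin.zero_eta]; linarith
          · simp only [Fin.mk_one]; linarith
        have hz2 : x 0 - a 0 = 0 := by
          rw [hz, zero_mul, zero_sub, neg_eq_zero, mul_eq_zero] at h1
          exact h1.resolve_left hz1
        refine ⟨(x 1 - a 1) / (p 1 - a 1), ?_⟩
        ext i
        fin_cases i
        · simp only [Fin.zero_eta, vadd_eq_add, PiLp.add_apply, PiLp.smul_apply, PiLp.sub_apply,
            smul_eq_mul, hz, mul_zero, zero_add]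
          linarith
        · simp only [Fin.mk_one, vadd_eq_add, PiLp.add_apply, PiLp.smul_apply, PiLp.sub_apply,
            smul_eq_mul]
          field_simp
          ring
      · refine ⟨(x 0 - a 0) / (p 0 - a 0), ?_⟩
        ext i
        fin_cases i
        · simp only [Fin.zero_eta, vadd_eq_add, PiLp.add_apply, PiLp.smul_apply, PiLp.sub_apply,
            smul_eq_mul]
          field_simp
          ring
        · simp only [Fin.mk_one, vadd_eq_add, PiLp.add_apply, PiLp.smul_apply, PiLp.sub_apply,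
            smul_eq_mul]
          field_simp
          linear_combination h1

/-- **Main counting step.** -/
theorem card_le (M D : ℕ) (hM : 1 ≤ M)
    (hD : ∀ x : ℕ, 1 ≤ x → x ≤ 512 * M ^ 6 → x.divisors.card ≤ D) (P : Finset Plane)
    (hP : ∀ p ∈ P, InBox M p) (hgp : GeneralPosition P) (h3 : 3 ≤ P.card) :
    (P.card - 1) * (P.card - 2) ≤ 1728 * D ^ 6 * (radii P).ncard := by
  classical
  obtain ⟨a, ha⟩ : P.Nonempty := card_pos.mp (by omega)
  -- integer coordinates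
  set ι : Plane → V := fun p => (⌊p 0 - a 0⌋, ⌊p 1 - a 1⌋) with hι
  have hι0 : ∀ p ∈ P, p 0 - a 0 = (ι p).1 ∧ p 1 - a 1 = (ι p).2 := by
    intro p hp
    obtain ⟨x, y, _, _, hx, hy⟩ := hP p hp
    obtain ⟨x', y', _, _, hx', hy'⟩ := hP a ha
    simp only [hι]
    constructor
    · rw [hx, hx', ← Int.cast_sub, Int.floor_intCast]
    · rw [hy, hy', ← Int.cast_sub, Int.floor_intCast]
  have hιb : ∀ p ∈ P, ∀ q ∈ P, nsq (ι p - ι q) ≤ 8 * M ^ 2 := by
    intro p hp q hq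
    obtain ⟨x, y, x1, y1, hx, hy⟩ := hP p hp
    obtain ⟨x', y', x1', y1', hx', hy'⟩ := hP q hq
    have e1 : (ι p).1 - (ι q).1 = x - x' := by
      have h1 := (hι0 p hp).1
      have h2 := (hι0 q hq).1
      have : (((ι p).1 - (ι q).1 : ℤ) : ℝ) = ((x - x' : ℤ) : ℝ) := by
        push_cast
        rw [← h1, ← h2, hx, hx']; ring
      exact_mod_cast this
    have e2 : (ι p).2 - (ι q).2 = y - y' := by
      have h1 := (hι0 p hp).2
      have h2 := (hι0 q hq).2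
      have : (((ι p).2 - (ι q).2 : ℤ) : ℝ) = ((y - y' : ℤ) : ℝ) := by
        push_cast
        rw [← h1, ← h2, hy, hy']; ring
      exact_mod_cast this
    unfold nsq
    simp only [Prod.fst_sub, Prod.snd_sub]
    rw [e1, e2]
    have b1 : |x - x'| ≤ 2 * M := by
      have := abs_sub x x'
      linarith
    have b2 : |y - y'| ≤ 2 * M := by
      have := abs_sub y y'
      linarith
    have b3 : (x - x') ^ 2 ≤ (2 * M) ^ 2 := by
      rw [← sq_abs (x - x')]
      exact pow_le_pow_left₀ (abs_nonneg _) b1 2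
    have b4 : (y - y') ^ 2 ≤ (2 * M) ^ 2 := by
      rw [← sq_abs (y - y')]
      exact pow_le_pow_left₀ (abs_nonneg _) b2 2
    nlinarith
  have hιa : ι a = 0 := by simp [hι]
  have hιb0 : ∀ p ∈ P, nsq (ι p) ≤ 8 * M ^ 2 := by
    intro p hp
    have := hιb p hp a ha
    rw [hιa, sub_zero] at this
    exact this
  have hιinj : ∀ p ∈ P, ∀ q ∈ P, ι p = ι q → p = q := by
    intro p hp q hq h
    have h1 := hι0 p hp
    have h2 := hι0 q hq
    rw [h] at h1
    ext i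
    fin_cases i
    · simp only [Fin.zero_eta]; linarith [h1.1, h2.1]
    · simp only [Fin.mk_one]; linarith [h1.2, h2.2]
  -- the pairs
  set Q := (P.erase a).offDiag with hQ
  have hQcard : Q.card = (P.card - 1) * (P.card - 2) := by
    rw [hQ, offDiag_card, card_erase_of_mem ha]
    have : P.card - 1 = (P.card - 2) + 1 := by omega
    rw [this]
    have h5 : ((P.card - 2) + 1) * ((P.card - 2) + 1) =
        ((P.card - 2) + 1) * (P.card - 2) + ((P.card - 2) + 1) := by ring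
    rw [h5]
    simp
  have hQm : ∀ x ∈ Q, x.1 ∈ P ∧ x.2 ∈ P ∧ x.1 ≠ a ∧ x.2 ≠ a ∧ x.1 ≠ x.2 := by
    intro x hx
    rw [hQ, mem_offDiag] at hx
    obtain ⟨h1, h2, h4⟩ := hx
    exact ⟨mem_of_mem_erase h1, mem_of_mem_erase h2, ne_of_mem_erase h1, ne_of_mem_erase h2, h4⟩
  have hT3 : ∀ x ∈ Q, ({a, x.1, x.2} : Finset Plane).card = 3 := by
    intro x hx
    obtain ⟨_, _, h1, h2, h4⟩ := hQm x hx
    exact card_eq_three.mpr ⟨a, x.1, x.2, h1.symm, h2.symm, h4, rfl⟩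
  have hTP : ∀ x ∈ Q, ({a, x.1, x.2} : Finset Plane) ⊆ P := by
    intro x hx y hy
    obtain ⟨h1, h2, _⟩ := hQm x hx
    simp only [mem_insert, mem_singleton] at hy
    rcases hy with rfl | rfl | rfl
    · exact ha
    · exact h1
    · exact h2
  have hcol : ∀ x ∈ Q, ¬ Collinear ℝ ({a, x.1, x.2} : Set Plane) := by
    intro x hx h
    apply hgp.1 _ (hTP x hx) (hT3 x hx)
    simpa using h
  have hex : ∀ x : Plane × Plane, ∃ r : ℝ, x ∈ Q → IsCircumradius {a, x.1, x.2} r := by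
    intro x
    by_cases hx : x ∈ Q
    · obtain ⟨r, hr⟩ := exists_circumradius (hT3 x hx) (hgp.1 _ (hTP x hx) (hT3 x hx))
      exact ⟨r, fun _ => hr⟩
    · exact ⟨0, fun h => absurd h hx⟩
  choose ρ hρ using hex
  have himg : ((Q.image ρ : Finset ℝ) : Set ℝ) ⊆ radii P := by
    intro r hr
    rw [mem_coe, mem_image] at hr
    obtain ⟨x, hx, rfl⟩ := hr
    exact ⟨_, hTP x hx, hT3 x hx, hρ x hx⟩
  have himgc : (Q.image ρ).card ≤ (radii P).ncard := by
    rw [← Set.ncard_coe_finset]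
    exact Set.ncard_le_ncard himg (radii_finite P)
  have hcr : ∀ x ∈ Q, cr (ι x.1) (ι x.2) ≠ 0 := by
    intro x hx
    obtain ⟨h1, h2, _⟩ := hQm x hx
    exact cr_ne_zero (hcol x hx) (hι0 _ h1).1 (hι0 _ h1).2 (hι0 _ h2).1 (hι0 _ h2).2
  have hform : ∀ x ∈ Q, 4 * ρ x ^ 2 * (cr (ι x.1) (ι x.2) : ℝ) ^ 2 =
      ((nsq (ι x.1) * nsq (ι x.2) * nsq (ι x.1 - ι x.2) : ℤ) : ℝ) := by
    intro x hx
    obtain ⟨h1, h2, _⟩ := hQm x hx
    exact circum_formula (hρ x hx) (hι0 _ h1).1 (hι0 _ h1).2 (hι0 _ h2).1 (hι0 _ h2).2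
  have hpos : ∀ x ∈ Q, 0 < nsq (ι x.1) ∧ 0 < nsq (ι x.2) ∧ 0 < nsq (ι x.1 - ι x.2) := by
    intro x hx
    have h1 := hcr x hx
    refine ⟨nsq_pos h1, ?_, ?_⟩
    · apply nsq_pos (c := ι x.1)
      intro h0
      apply h1
      unfold cr at h0 ⊢
      linarith
    · apply nsq_pos (c := ι x.1)
      intro h0
      apply h1
      unfold cr at h0 ⊢
      simp only [Prod.fst_sub, Prod.snd_sub] at h0
      linarith
  have hD1 : ∀ p ∈ P, 0 < nsq (ι p) → (nsq (ι p)).toNat.divisors.card ≤ D := by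
    intro p hp hpos
    apply hD
    · omega
    · have h1 := hιb0 p hp
      have h2 : (nsq (ι p)).toNat ≤ 8 * M ^ 2 := by
        zify
        rw [Int.toNat_of_nonneg hpos.le]
        exact h1
      have h4 : M ^ 2 ≤ M ^ 6 := Nat.pow_le_pow_right hM (by norm_num)
      omega
  -- the fibres
  have hfib : ∀ r ∈ Q.image ρ, (Q.filter (fun x => ρ x = r)).card ≤ 1728 * D ^ 6 := by
    intro r hr
    rw [mem_image] at hr
    obtain ⟨x₀, hx₀, rfl⟩ := hr
    obtain ⟨n1, n2, n3⟩ := hpos x₀ hx₀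
    set A : ℕ := (nsq (ι x₀.1) * nsq (ι x₀.2) * nsq (ι x₀.1 - ι x₀.2)).toNat with hA
    set B : ℕ := (cr (ι x₀.1) (ι x₀.2) ^ 2).toNat with hB
    have hAp : 0 < nsq (ι x₀.1) * nsq (ι x₀.2) * nsq (ι x₀.1 - ι x₀.2) :=
      mul_pos (mul_pos n1 n2) n3
    have hBp : 0 < cr (ι x₀.1) (ι x₀.2) ^ 2 := by
      have := hcr x₀ hx₀
      positivity
    have hAz : (A : ℤ) = nsq (ι x₀.1) * nsq (ι x₀.2) * nsq (ι x₀.1 - ι x₀.2) :=
      Int.toNat_of_nonneg hAp.le
    have hBz : (B : ℤ) = cr (ι x₀.1) (ι x₀.2) ^ 2 := Int.toNat_of_nonneg hBp.le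
    have hA0 : 0 < A := by
      have : (0 : ℤ) < A := by rw [hAz]; exact hAp
      exact_mod_cast this
    have hB0 : 0 < B := by
      have : (0 : ℤ) < B := by rw [hBz]; exact hBp
      exact_mod_cast this
    have hAle : A ≤ 512 * M ^ 6 := by
      obtain ⟨m1, m2, _⟩ := hQm x₀ hx₀
      have b1 := hιb0 _ m1
      have b2 := hιb0 _ m2
      have b3 := hιb _ m1 _ m2
      have : (A : ℤ) ≤ 512 * M ^ 6 := by
        rw [hAz]
        calc nsq (ι x₀.1) * nsq (ι x₀.2) * nsq (ι x₀.1 - ι x₀.2) ≤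
            (8 * M ^ 2) * (8 * M ^ 2) * (8 * M ^ 2) := by
              apply mul_le_mul (mul_le_mul b1 b2 n2.le (by positivity)) b3 n3.le (by positivity)
          _ = 512 * M ^ 6 := by ring
      exact_mod_cast this
    set S := (Q.filter (fun x => ρ x = ρ x₀)).image (fun x => ((ι x.1, ι x.2) : V × V)) with hS
    have hScard : (Q.filter (fun x => ρ x = ρ x₀)).card = S.card := by
      rw [hS, card_image_of_injOn]
      intro x hx y hy hxy
      have hx' : x ∈ Q := (mem_filter.mp hx).1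
      have hy' : y ∈ Q := (mem_filter.mp hy).1
      have e1 : ι x.1 = ι y.1 := congrArg Prod.fst hxy
      have e2 : ι x.2 = ι y.2 := congrArg Prod.snd hxy
      exact Prod.ext (hιinj _ (hQm x hx').1 _ (hQm y hy').1 e1)
        (hιinj _ (hQm x hx').2.1 _ (hQm y hy').2.1 e2)
    rw [hScard]
    have h9 := card_fibre S A B hA0 hB0 D (by
      intro y hy
      rw [hS, mem_image] at hy
      obtain ⟨x, hx, rfl⟩ := hy
      rw [mem_filter] at hx
      obtain ⟨hxQ, hxr⟩ := hx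
      refine ⟨hcr x hxQ, ?_⟩
      have g1 := hform x hxQ
      have g2 := hform x₀ hx₀
      rw [hxr] at g1
      have g3 : ((B * (nsq (ι x.1) * nsq (ι x.2) * nsq (ι x.1 - ι x.2)) : ℤ) : ℝ) =
          ((A * cr (ι x.1) (ι x.2) ^ 2 : ℤ) : ℝ) := by
        rw [hAz, hBz, Int.cast_mul, Int.cast_mul _ (cr (ι x.1) (ι x.2) ^ 2), ← g1, ← g2]
        push_cast
        ring
      exact_mod_cast g3) (by
      intro y hy
      rw [hS, mem_image] at hy
      obtain ⟨x, hx, rfl⟩ := hy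
      rw [mem_filter] at hx
      exact hD1 _ (hQm x hx.1).1 (hpos x hx.1).1)
    refine h9.trans ?_
    have h10 : A.divisors.card ≤ D := hD A hA0 hAle
    calc 12 * D ^ 2 * (12 * A.divisors.card ^ 2) ^ 2 ≤ 12 * D ^ 2 * (12 * D ^ 2) ^ 2 := by
          apply Nat.mul_le_mul_left
          apply Nat.pow_le_pow_left
          exact Nat.mul_le_mul_left 12 (Nat.pow_le_pow_left h10 2)
      _ = 1728 * D ^ 6 := by ring
  calc (P.card - 1) * (P.card - 2) = Q.card := hQcard.symm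
    _ ≤ (1728 * D ^ 6) * (Q.image ρ).card := card_le_mul_card_image (s := Q) (f := ρ) _ hfib
    _ ≤ 1728 * D ^ 6 * (radii P).ncard := Nat.mul_le_mul_left _ himgc

/-- **Lower bound.** For every `ε > 0` there is `c > 0` such that every set of `n ≥ 3` points in
general position in `{-M..M}²` has at least `c n² / M^ε` circumradii. -/
theorem lower (ε : ℝ) (hε : 0 < ε) : ∃ c : ℝ, 0 < c ∧ ∀ (M : ℕ), 1 ≤ M → ∀ P : Finset Plane,
    (∀ p ∈ P, InBox M p) → GeneralPosition P → 3 ≤ P.card →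
      c * (P.card : ℝ) ^ 2 / (M : ℝ) ^ ε ≤ ((radii P).ncard : ℝ) := by
  obtain ⟨C, hC, hdiv⟩ := MP_391708_nt.Div.card_divisors_le_rpow (ε / 36) (by positivity)
  set K : ℝ := 1728 * ((C + 1) * (512 : ℝ) ^ (ε / 36) * 2) ^ 6 with hK
  have hK0 : 0 < K := by positivity
  refine ⟨1 / (5 * K), by positivity, ?_⟩
  intro M hM P hP hgp h3
  have hMR : (1 : ℝ) ≤ M := by exact_mod_cast hM
  set D : ℕ := ⌈(C + 1) * ((512 * M ^ 6 : ℕ) : ℝ) ^ (ε / 36)⌉₊ with hD
  have h1 := card_le M D hM (by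
    intro x hx hxM
    have h2 := hdiv x (by omega)
    have h3 : (x : ℝ) ^ (ε / 36) ≤ ((512 * M ^ 6 : ℕ) : ℝ) ^ (ε / 36) :=
      Real.rpow_le_rpow (by positivity) (by exact_mod_cast hxM) (by positivity)
    have h4 : (x.divisors.card : ℝ) ≤ D := by
      refine le_trans ?_ (Nat.le_ceil _)
      refine h2.trans ?_
      have h5 : 0 ≤ ((512 * M ^ 6 : ℕ) : ℝ) ^ (ε / 36) := by positivity
      have h6 : 0 ≤ (x : ℝ) ^ (ε / 36) := by positivity
      nlinarith
    exact_mod_cast h4) P hP hgp h3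
  have hDle : (D : ℝ) ≤ (C + 1) * (512 : ℝ) ^ (ε / 36) * 2 * (M : ℝ) ^ (ε / 6) := by
    have h2 : ((512 * M ^ 6 : ℕ) : ℝ) ^ (ε / 36) = (512 : ℝ) ^ (ε / 36) * (M : ℝ) ^ (ε / 6) := by
      push_cast
      rw [Real.mul_rpow (by norm_num) (by positivity), ← Real.rpow_natCast, ← Real.rpow_mul
        (by positivity)]
      congr 2
      push_cast
      ring
    have h3 : (1 : ℝ) ≤ (C + 1) * ((512 * M ^ 6 : ℕ) : ℝ) ^ (ε / 36) := by
      have h4 : (1 : ℝ) ≤ ((512 * M ^ 6 : ℕ) : ℝ) ^ (ε / 36) := by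
        apply Real.one_le_rpow _ (by positivity)
        have : 1 ≤ 512 * M ^ 6 := by
          have := Nat.one_le_pow 6 M hM
          omega
        exact_mod_cast this
      nlinarith
    have h4 := (Nat.ceil_lt_add_one (show (0 : ℝ) ≤ (C + 1) * ((512 * M ^ 6 : ℕ) : ℝ) ^ (ε / 36)
      by linarith)).le
    rw [← hD] at h4
    rw [h2] at h4 h3
    nlinarith
  have hD6 : 1728 * (D : ℝ) ^ 6 ≤ K * (M : ℝ) ^ ε := by
    have h2 : (D : ℝ) ^ 6 ≤ ((C + 1) * (512 : ℝ) ^ (ε / 36) * 2 * (M : ℝ) ^ (ε / 6)) ^ 6 :=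
      pow_le_pow_left₀ (by positivity) hDle 6
    have h3 : ((M : ℝ) ^ (ε / 6)) ^ 6 = (M : ℝ) ^ ε := by
      rw [← Real.rpow_natCast, ← Real.rpow_mul (by positivity)]
      congr 1
      push_cast
      ring
    rw [mul_pow, h3] at h2
    calc 1728 * (D : ℝ) ^ 6 ≤ 1728 * (((C + 1) * (512 : ℝ) ^ (ε / 36) * 2) ^ 6 * (M : ℝ) ^ ε) :=
          mul_le_mul_of_nonneg_left h2 (by norm_num)
      _ = K * (M : ℝ) ^ ε := by rw [hK]; ring
  have hn : (P.card : ℝ) ^ 2 ≤ 5 * (((P.card - 1) * (P.card - 2) : ℕ) : ℝ) := by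
    obtain ⟨m, hm⟩ : ∃ m, P.card = m + 3 := ⟨P.card - 3, by omega⟩
    rw [hm]
    have e1 : m + 3 - 1 = m + 2 := by omega
    have e2 : m + 3 - 2 = m + 1 := by omega
    rw [e1, e2]
    push_cast
    have : (0 : ℝ) ≤ m := by positivity
    nlinarith
  have h1R : ((((P.card - 1) * (P.card - 2) : ℕ)) : ℝ) ≤ 1728 * (D : ℝ) ^ 6 * (radii P).ncard := by
    exact_mod_cast h1
  have hMε : 0 < (M : ℝ) ^ ε := by positivity
  rw [div_le_iff₀ hMε, div_mul_eq_mul_div, one_mul, div_le_iff₀ (by positivity)]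
  have h8 : 0 ≤ ((radii P).ncard : ℝ) := by positivity
  have h7 : 1728 * (D : ℝ) ^ 6 * (radii P).ncard ≤ K * (M : ℝ) ^ ε * (radii P).ncard :=
    mul_le_mul_of_nonneg_right hD6 h8
  nlinarith

end Pool.Agent.Lib.MP_cd3201_co.Lower
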