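import Pool.Agent.Lib.MP_cd3201_co.Radii

/-!
# Projections with small integer coefficients

`n` lattice points on a sphere have a projection to the plane with coefficients in
`{0, …, 12 n⁴}` which is injective on them and whose image is in general position.
-/

set_option autoImplicit false

open Finset MvPolynomial

namespace Pool.Agent.Lib.MP_cd3201_co.Proj

variable {d : ℕ}

/-- Finitely many nonzero polynomials have a common non-zero with small natural coordinates. -/
lemma exists_eval_ne_zero_nat {σ : Type} [Fintype σ] (F : Finset (MvPolynomial σ ℝ))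
    (hF : ∀ f ∈ F, f ≠ 0) (D : ℕ) (hD : ∀ f ∈ F, f.totalDegree ≤ 4) (hcard : 4 * F.card ≤ D) :
    ∃ z : σ → ℕ, (∀ i, z i ≤ D) ∧ ∀ f ∈ F, MvPolynomial.eval (fun i => (z i : ℝ)) f ≠ 0 := by
  classical
  have hprod : ∏ f ∈ F, f ≠ 0 := Finset.prod_ne_zero_iff.mpr hF
  have hdeg : (∏ f ∈ F, f).totalDegree ≤ D := by
    calc (∏ f ∈ F, f).totalDegree ≤ ∑ f ∈ F, f.totalDegree :=
          MvPolynomial.totalDegree_finsetProd F (fun f => f)
      _ ≤ ∑ _f ∈ F, 4 := Finset.sum_le_sum hD
      _ = 4 * F.card := by rw [Finset.sum_const, smul_eq_mul, mul_comm]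
      _ ≤ D := hcard
  by_contra hcon
  push Not at hcon
  apply hprod
  apply MvPolynomial.eq_zero_of_eval_zero_at_prod_finset (∏ f ∈ F, f)
    (fun _ => (range (D + 1)).image (fun n : ℕ => (n : ℝ)))
  · intro i
    rw [card_image_of_injective _ Nat.cast_injective, card_range]
    have := MvPolynomial.degreeOf_le_totalDegree (∏ f ∈ F, f) i
    omega
  · intro x hx
    have hex : ∀ i, ∃ n : ℕ, n ≤ D ∧ (n : ℝ) = x i := by
      intro i
      have := hx i
      rw [mem_image] at this
      obtain ⟨n, hn, h⟩ := this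
      rw [mem_range] at hn
      exact ⟨n, by omega, h⟩
    choose z hz hzx using hex
    obtain ⟨f, hf, hf0⟩ := hcon z hz
    rw [map_prod]
    apply Finset.prod_eq_zero hf
    have : x = fun i => (z i : ℝ) := funext fun i => (hzx i).symm
    rw [this]
    exact hf0

lemma totalDegree_lin (j : Fin 2) (p : Fin d → ℝ) : (lin j p).totalDegree ≤ 1 := by
  unfold lin
  apply MvPolynomial.totalDegree_finsetSum_le
  intro i _
  refine (MvPolynomial.totalDegree_mul _ _).trans ?_
  rw [MvPolynomial.totalDegree_C, MvPolynomial.totalDegree_X]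

lemma td_mul {σ : Type} {f g : MvPolynomial σ ℝ} {a b : ℕ} (hf : f.totalDegree ≤ a)
    (hg : g.totalDegree ≤ b) : (f * g).totalDegree ≤ a + b :=
  (MvPolynomial.totalDegree_mul f g).trans (Nat.add_le_add hf hg)

lemma td_sub {σ : Type} {f g : MvPolynomial σ ℝ} {a : ℕ} (hf : f.totalDegree ≤ a)
    (hg : g.totalDegree ≤ a) : (f - g).totalDegree ≤ a :=
  (MvPolynomial.totalDegree_sub f g).trans (max_le hf hg)

lemma td_add {σ : Type} {f g : MvPolynomial σ ℝ} {a : ℕ} (hf : f.totalDegree ≤ a)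
    (hg : g.totalDegree ≤ a) : (f + g).totalDegree ≤ a :=
  (MvPolynomial.totalDegree_add f g).trans (max_le hf hg)

lemma td_sq {σ : Type} {f : MvPolynomial σ ℝ} (hf : f.totalDegree ≤ 1) :
    (f ^ 2).totalDegree ≤ 2 := by
  rw [pow_two]; exact td_mul hf hf

lemma totalDegree_colPoly (p q : Fin d → ℝ) : (colPoly p q).totalDegree ≤ 2 := by
  unfold colPoly
  exact td_sub (td_mul (totalDegree_lin _ _) (totalDegree_lin _ _))
    (td_mul (totalDegree_lin _ _) (totalDegree_lin _ _))

lemma totalDegree_circPoly (p q r : Fin d → ℝ) : (circPoly p q r).totalDegree ≤ 4 := by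
  have h1 : ∀ (j : Fin 2) (p : Fin d → ℝ), (lin j p).totalDegree ≤ 1 := totalDegree_lin
  have h2 : ∀ (p : Fin d → ℝ), (lin 0 p ^ 2 + lin 1 p ^ 2).totalDegree ≤ 2 := fun p =>
    td_add (td_sq (h1 _ _)) (td_sq (h1 _ _))
  have h3 : ∀ (i j : Fin 2) (p q r s : Fin d → ℝ),
      (lin i p * (lin 0 q ^ 2 + lin 1 q ^ 2) - lin j r * (lin 0 s ^ 2 + lin 1 s ^ 2)).totalDegree ≤
        3 := fun i j p q r s => td_sub (td_mul (h1 _ _) (h2 _)) (td_mul (h1 _ _) (h2 _))
  unfold circPoly
  refine td_add (td_sub (td_mul (h1 _ _) (h3 _ _ _ _ _ _)) (td_mul (h1 _ _) (h3 _ _ _ _ _ _))) ?_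
  exact td_mul (h2 _) (td_sub (td_mul (h1 _ _) (h1 _ _)) (td_mul (h1 _ _) (h1 _ _)))

/-- Lattice points on a sphere have a projection to the plane with small natural coefficients which
is injective on them and whose image is in general position. -/
theorem exists_good_projection_nat {R : ℕ} (S : Finset (Fin d → ℕ))
    (hS : ∀ x ∈ S, ∑ i, x i ^ 2 = R) :
    ∃ z : Fin 2 × Fin d → ℕ, (∀ i, z i ≤ 12 * S.card ^ 4) ∧
      Set.InjOn (proj (fun i => (z i : ℝ))) (S : Set (Fin d → ℕ)) ∧
      GeneralPosition (S.image (proj (fun i => (z i : ℝ)))) := by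
  classical
  let F1 : Finset (MvPolynomial (Fin 2 × Fin d) ℝ) :=
    ((S ×ˢ S).filter (fun p => p.1 ≠ p.2)).image (fun p => lin 0 (toR p.2 - toR p.1))
  let F2 : Finset (MvPolynomial (Fin 2 × Fin d) ℝ) :=
    ((S ×ˢ S ×ˢ S).filter (fun p => p.1 ≠ p.2.1 ∧ p.1 ≠ p.2.2 ∧ p.2.1 ≠ p.2.2)).image
      (fun p => colPoly (toR p.2.1 - toR p.1) (toR p.2.2 - toR p.1))
  let F3 : Finset (MvPolynomial (Fin 2 × Fin d) ℝ) :=
    ((S ×ˢ S ×ˢ S ×ˢ S).filter (fun p => p.1 ≠ p.2.1 ∧ p.1 ≠ p.2.2.1 ∧ p.1 ≠ p.2.2.2 ∧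
      p.2.1 ≠ p.2.2.1 ∧ p.2.1 ≠ p.2.2.2 ∧ p.2.2.1 ≠ p.2.2.2)).image
      (fun p => circPoly (toR p.2.1 - toR p.1) (toR p.2.2.1 - toR p.1) (toR p.2.2.2 - toR p.1))
  have hc1 : F1.card ≤ S.card ^ 2 := by
    refine card_image_le.trans ((card_filter_le _ _).trans ?_)
    rw [card_product]; exact le_of_eq (by ring)
  have hc2 : F2.card ≤ S.card ^ 3 := by
    refine card_image_le.trans ((card_filter_le _ _).trans ?_)
    rw [card_product, card_product]; exact le_of_eq (by ring)
  have hc3 : F3.card ≤ S.card ^ 4 := by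
    refine card_image_le.trans ((card_filter_le _ _).trans ?_)
    rw [card_product, card_product, card_product]; exact le_of_eq (by ring)
  have hcard : 4 * (F1 ∪ F2 ∪ F3).card ≤ 12 * S.card ^ 4 := by
    have h1 : (F1 ∪ F2 ∪ F3).card ≤ F1.card + F2.card + F3.card :=
      (card_union_le _ _).trans (Nat.add_le_add_right (card_union_le _ _) _)
    rcases Nat.eq_zero_or_pos S.card with h0 | h0
    · rw [h0] at hc1 hc2 hc3
      simp at hc1 hc2 hc3
      have : (F1 ∪ F2 ∪ F3).card = 0 := by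
        simp [hc1, hc2, hc3]
      omega
    · have h2 : S.card ^ 2 ≤ S.card ^ 4 := Nat.pow_le_pow_right h0 (by norm_num)
      have h3 : S.card ^ 3 ≤ S.card ^ 4 := Nat.pow_le_pow_right h0 (by norm_num)
      omega
  obtain ⟨z, hzb, hz⟩ := exists_eval_ne_zero_nat (F1 ∪ F2 ∪ F3) (by
    intro f hf
    rw [mem_union, mem_union] at hf
    rcases hf with (hf | hf) | hf
    · simp only [F1, mem_image, mem_filter, mem_product] at hf
      obtain ⟨p, ⟨⟨_, _⟩, hne⟩, rfl⟩ := hf
      intro h0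
      have h1 : MvPolynomial.eval (fun a : Fin 2 × Fin d => (toR p.2 - toR p.1) a.2)
          (lin 0 (toR p.2 - toR p.1)) = 0 := by rw [h0, map_zero]
      rw [eval_lin] at h1
      have h2 := dotProduct_self_eq_zero.mp h1
      exact hne (toR_injective (sub_eq_zero.mp h2)).symm
    · simp only [F2, mem_image, mem_filter, mem_product] at hf
      obtain ⟨p, ⟨⟨h1, h2, h3⟩, n1, n2, n3⟩, rfl⟩ := hf
      exact colPoly_ne_zero (notParallel_of_sphere (hS _ h1) (hS _ h2) (hS _ h3) n1 n2 n3)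
    · simp only [F3, mem_image, mem_filter, mem_product] at hf
      obtain ⟨p, ⟨⟨h0, h1, h2, h3⟩, n01, n02, n03, n12, n13, n23⟩, rfl⟩ := hf
      exact circPoly_ne_zero
        (notParallel_of_sphere (hS _ h0) (hS _ h1) (hS _ h2) n01 n02 n12)
        (notParallel_of_sphere (hS _ h0) (hS _ h1) (hS _ h3) n01 n03 n13)
        (notParallel_of_sphere (hS _ h0) (hS _ h2) (hS _ h1) n02 n01 n12.symm)
        (notParallel_of_sphere (hS _ h0) (hS _ h2) (hS _ h3) n02 n03 n23)
        (notParallel_of_sphere (hS _ h0) (hS _ h3) (hS _ h1) n03 n01 n13.symm)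
        (notParallel_of_sphere (hS _ h0) (hS _ h3) (hS _ h2) n03 n02 n23.symm))
    (12 * S.card ^ 4) (by
    intro f hf
    rw [mem_union, mem_union] at hf
    rcases hf with (hf | hf) | hf
    · simp only [F1, mem_image] at hf
      obtain ⟨p, _, rfl⟩ := hf
      exact (totalDegree_lin _ _).trans (by norm_num)
    · simp only [F2, mem_image] at hf
      obtain ⟨p, _, rfl⟩ := hf
      exact (totalDegree_colPoly _ _).trans (by norm_num)
    · simp only [F3, mem_image] at hf
      obtain ⟨p, _, rfl⟩ := hf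
      exact totalDegree_circPoly _ _ _) hcard
  set w : Fin 2 × Fin d → ℝ := fun i => (z i : ℝ) with hw
  have e0 : ∀ a b : Fin d → ℕ, (fun i => w (0, i)) ⬝ᵥ (toR b - toR a) =
      proj w b 0 - proj w a 0 := by
    intro a b; rw [dotProduct_sub, proj_zero, proj_zero]
  have e1 : ∀ a b : Fin d → ℕ, (fun i => w (1, i)) ⬝ᵥ (toR b - toR a) =
      proj w b 1 - proj w a 1 := by
    intro a b; rw [dotProduct_sub, proj_one, proj_one]
  refine ⟨z, hzb, ?_, ?_, ?_⟩
  · intro a ha b hb hab
    by_contra hne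
    have h1 := hz (lin 0 (toR b - toR a)) (by
      rw [mem_union, mem_union]; left; left
      simp only [F1, mem_image, mem_filter, mem_product]
      exact ⟨(a, b), ⟨⟨ha, hb⟩, hne⟩, rfl⟩)
    apply h1
    rw [eval_lin, e0, hab, sub_self]
  · intro T hT hT3 hcol
    rw [card_eq_three] at hT3
    obtain ⟨x, y, t, hxy, hxt, hyt, rfl⟩ := hT3
    have hx := hT (show x ∈ ({x, y, t} : Finset Plane) by simp)
    have hy := hT (show y ∈ ({x, y, t} : Finset Plane) by simp)
    have ht := hT (show t ∈ ({x, y, t} : Finset Plane) by simp)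
    rw [mem_image] at hx hy ht
    obtain ⟨a, ha, rfl⟩ := hx
    obtain ⟨b, hb, rfl⟩ := hy
    obtain ⟨c, hc, rfl⟩ := ht
    have hab : a ≠ b := by rintro rfl; exact hxy rfl
    have hac : a ≠ c := by rintro rfl; exact hxt rfl
    have hbc : b ≠ c := by rintro rfl; exact hyt rfl
    have h1 := hz (colPoly (toR b - toR a) (toR c - toR a)) (by
      rw [mem_union, mem_union]; left; right
      simp only [F2, mem_image, mem_filter, mem_product]
      exact ⟨(a, b, c), ⟨⟨ha, hb, hc⟩, hab, hac, hbc⟩, rfl⟩)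
    apply h1
    simp only [colPoly, map_sub, map_mul, eval_lin, e0, e1]
    apply cross_eq_zero_of_collinear
    simpa using hcol
  · intro Q hQ hQ4 hcos
    rw [card_eq_succ] at hQ4
    obtain ⟨x, Q', hxQ', rfl, hQ'⟩ := hQ4
    rw [card_eq_three] at hQ'
    obtain ⟨y, t, v, hyt, hyv, htv, rfl⟩ := hQ'
    have hx := hQ (show x ∈ insert x ({y, t, v} : Finset Plane) by simp)
    have hy := hQ (show y ∈ insert x ({y, t, v} : Finset Plane) by simp)
    have ht := hQ (show t ∈ insert x ({y, t, v} : Finset Plane) by simp)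
    have hv := hQ (show v ∈ insert x ({y, t, v} : Finset Plane) by simp)
    simp only [mem_insert, mem_singleton, not_or] at hxQ'
    obtain ⟨hxy, hxt, hxv⟩ := hxQ'
    rw [mem_image] at hx hy ht hv
    obtain ⟨a, ha, rfl⟩ := hx
    obtain ⟨b, hb, rfl⟩ := hy
    obtain ⟨c, hc, rfl⟩ := ht
    obtain ⟨e, he, rfl⟩ := hv
    have hab : a ≠ b := by rintro rfl; exact hxy rfl
    have hac : a ≠ c := by rintro rfl; exact hxt rfl
    have hae : a ≠ e := by rintro rfl; exact hxv rfl
    have hbc : b ≠ c := by rintro rfl; exact hyt rfl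
    have hbe : b ≠ e := by rintro rfl; exact hyv rfl
    have hce : c ≠ e := by rintro rfl; exact htv rfl
    have h1 := hz (circPoly (toR b - toR a) (toR c - toR a) (toR e - toR a)) (by
      rw [mem_union, mem_union]; right
      simp only [F3, mem_image, mem_filter, mem_product]
      exact ⟨(a, b, c, e), ⟨⟨ha, hb, hc, he⟩, hab, hac, hae, hbc, hbe, hce⟩, rfl⟩)
    apply h1
    rw [eval_circPoly]
    simp only [e0, e1]
    apply detCirc_eq_zero_of_cospherical
    simpa using hcos

end Pool.Agent.Lib.MP_cd3201_co.Proj
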