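import Mathlib
import Pool.Agent.Lib.MP_391708_nt.Div

/-!
# The number of representations as a sum of two squares

`r(n) ≤ 12 d(n)²`, proved with the roots of `-1` modulo `n`.
-/

set_option autoImplicit false

open Finset

namespace Pool.Agent.Lib.MP_cd3201_co.TwoSq

noncomputable section

/-- the roots of `-1` modulo `n` -/
def roots (n : ℕ) : Finset ℤ := (Finset.Ico (0 : ℤ) n).filter (fun s => (n : ℤ) ∣ s ^ 2 + 1)

theorem root_fib {n : ℕ} (hn : 0 < n) {s₀ s s' : ℤ} (h₀ : (n : ℤ) ∣ s₀ ^ 2 + 1)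
    (h : (n : ℤ) ∣ s ^ 2 + 1) (h' : (n : ℤ) ∣ s' ^ 2 + 1)
    (hg : Int.gcd (s - s₀) n = Int.gcd (s' - s₀) n) : (n : ℤ) ∣ 2 * (s - s') := by
  set d : ℕ := Int.gcd (s - s₀) n with hd
  have hd0 : 0 < d := Int.gcd_pos_of_ne_zero_right _ (by exact_mod_cast hn.ne')
  have hdn : (d : ℤ) ∣ n := Int.gcd_dvd_right _ _
  have hds : (d : ℤ) ∣ s - s₀ := Int.gcd_dvd_left _ _
  have hds' : (d : ℤ) ∣ s' - s₀ := by rw [hg]; exact Int.gcd_dvd_left _ _
  obtain ⟨m, hm⟩ := hdn
  have hd0' : (d : ℤ) ≠ 0 := by exact_mod_cast hd0.ne'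
  have hm0 : m ≠ 0 := by
    rintro rfl
    rw [mul_zero] at hm
    have : (n : ℤ) ≠ 0 := by exact_mod_cast hn.ne'
    exact this hm
  -- `m ∣ s + s₀`
  have key : ∀ x : ℤ, (n : ℤ) ∣ x ^ 2 + 1 → Int.gcd (x - s₀) n = d → m ∣ x + s₀ := by
    intro x hx hxd
    obtain ⟨e, he⟩ : (d : ℤ) ∣ x - s₀ := by rw [← hxd]; exact Int.gcd_dvd_left _ _
    have h1 : (n : ℤ) ∣ (x - s₀) * (x + s₀) := by
      have : (x - s₀) * (x + s₀) = (x ^ 2 + 1) - (s₀ ^ 2 + 1) := by ring
      rw [this]
      exact dvd_sub hx h₀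
    rw [hm, he, mul_assoc] at h1
    have h2 : m ∣ e * (x + s₀) := (mul_dvd_mul_iff_left hd0').mp h1
    have h3 : IsCoprime m e := by
      rw [Int.isCoprime_iff_gcd_eq_one]
      have h4 : Int.gcd (x - s₀) n = d * Int.gcd e m := by
        rw [he, hm, Int.gcd_mul_left]
        simp
      rw [hxd] at h4
      have h5 : d * 1 = d * Int.gcd e m := by rw [mul_one]; exact h4
      rw [Int.gcd_comm]
      exact (Nat.eq_of_mul_eq_mul_left hd0 h5).symm
    exact h3.dvd_of_dvd_mul_left h2
  have k1 : m ∣ s + s₀ := key s h rfl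
  have k2 : m ∣ s' + s₀ := key s' h' hg.symm
  have a1 : (d : ℤ) ∣ s - s' := by
    have : s - s' = (s - s₀) - (s' - s₀) := by ring
    rw [this]; exact dvd_sub hds hds'
  have a2 : m ∣ s - s' := by
    have : s - s' = (s + s₀) - (s' + s₀) := by ring
    rw [this]; exact dvd_sub k1 k2
  -- `gcd (d, m) ∣ 2`
  have hg2 : ((Int.gcd d m : ℕ) : ℤ) ∣ 2 := by
    set g : ℤ := ((Int.gcd d m : ℕ) : ℤ) with hgdef
    have g1 : g ∣ (d : ℤ) := Int.gcd_dvd_left _ _
    have g2 : g ∣ m := Int.gcd_dvd_right _ _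
    have g3 : g ∣ 2 * s₀ := by
      have : 2 * s₀ = (s + s₀) - (s - s₀) := by ring
      rw [this]
      exact dvd_sub (g2.trans k1) (g1.trans hds)
    have g4 : g ∣ s₀ ^ 2 + 1 := (g1.trans (Int.gcd_dvd_right _ _)).trans h₀
    have g5 : (2 : ℤ) = 2 * (s₀ ^ 2 + 1) - s₀ * (2 * s₀) := by ring
    rw [g5]
    exact dvd_sub (g4.mul_left _) (g3.mul_left _)
  obtain ⟨x, hx⟩ := a1
  obtain ⟨y, hy⟩ := a2
  -- Bezout
  have hbez := Int.gcd_eq_gcd_ab (d : ℤ) m
  obtain ⟨k, hk⟩ := hg2
  have h8 : 2 * (s - s') = k * (d * Int.gcdA d m + m * Int.gcdB d m) * (s - s') := by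
    rw [← hbez]
    rw [hk]
    ring
  rw [h8, hm]
  have h9 : k * (d * Int.gcdA d m + m * Int.gcdB d m) * (s - s') =
      d * m * (k * (Int.gcdA d m * y + Int.gcdB d m * x)) := by
    have e1 : k * (d * Int.gcdA d m + m * Int.gcdB d m) * (s - s') =
        k * (d * Int.gcdA d m * (s - s') + m * Int.gcdB d m * (s - s')) := by ring
    rw [e1]
    nth_rewrite 1 [hy]
    rw [hx]
    ring
  rw [h9]
  exact dvd_mul_right _ _

theorem card_roots (n : ℕ) (hn : 0 < n) : (roots n).card ≤ 3 * n.divisors.card := by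
  classical
  rcases (roots n).eq_empty_or_nonempty with h | ⟨s₀, hs₀⟩
  · rw [h]; simp
  have h₀ : (n : ℤ) ∣ s₀ ^ 2 + 1 := (mem_filter.mp hs₀).2
  have hnz : (n : ℤ) ≠ 0 := by exact_mod_cast hn.ne'
  set f : ℤ → ℕ := fun s => Int.gcd (s - s₀) n with hf
  have himg : (roots n).image f ⊆ n.divisors := by
    intro d hd
    rw [mem_image] at hd
    obtain ⟨s, _, rfl⟩ := hd
    rw [Nat.mem_divisors]
    refine ⟨?_, hn.ne'⟩
    have := Int.gcd_dvd_right (s - s₀) n
    exact_mod_cast this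
  have hfib : ∀ d ∈ (roots n).image f, ((roots n).filter (fun s => f s = d)).card ≤ 3 := by
    intro d hd
    rw [mem_image] at hd
    obtain ⟨s, hs, rfl⟩ := hd
    have hs1 := mem_filter.mp hs
    have hs2 := Finset.mem_Ico.mp hs1.1
    have hsub : (roots n).filter (fun x => f x = f s) ⊆
        {s, s + n / 2, s - n / 2} := by
      intro x hx
      rw [mem_filter] at hx
      have hx1 := mem_filter.mp hx.1
      have hx2 := Finset.mem_Ico.mp hx1.1
      have h1 := root_fib hn h₀ hx1.2 hs1.2 hx.2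
      obtain ⟨k, hk⟩ := h1
      have hnp : (0 : ℤ) < n := by exact_mod_cast hn
      have k1 : k < 2 := by
        by_contra hcon
        push Not at hcon
        nlinarith
      have k2 : -2 < k := by
        by_contra hcon
        push Not at hcon
        nlinarith
      simp only [mem_insert, mem_singleton]
      have : k = -1 ∨ k = 0 ∨ k = 1 := by omega
      rcases this with rfl | rfl | rfl
      · right; right; omega
      · left; omega
      · right; left; omega
    exact (card_le_card hsub).trans card_le_three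
  calc (roots n).card ≤ 3 * ((roots n).image f).card := card_le_mul_card_image (s := roots n) (f := f) 3 hfib
    _ ≤ 3 * n.divisors.card := Nat.mul_le_mul_left 3 (card_le_card himg)

/-- integer vectors -/
abbrev V : Type := ℤ × ℤ

/-- squared length -/
def nsq (v : V) : ℤ := v.1 ^ 2 + v.2 ^ 2

/-- a box that contains all vectors of squared length `≤ n` -/
def box (n : ℕ) : Finset V := Finset.Icc (-(n : ℤ)) n ×ˢ Finset.Icc (-(n : ℤ)) n

theorem mem_box {n : ℕ} {v : V} (h : nsq v ≤ n) : v ∈ box n := by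
  unfold nsq at h
  simp only [box, mem_product, Finset.mem_Icc]
  refine ⟨⟨?_, ?_⟩, ?_, ?_⟩ <;> nlinarith [sq_nonneg v.1, sq_nonneg v.2, sq_nonneg (v.1 - 1),
    sq_nonneg (v.1 + 1), sq_nonneg (v.2 - 1), sq_nonneg (v.2 + 1)]

/-- representations of `n` -/
def reps (n : ℕ) : Finset V := (box n).filter (fun v => nsq v = n)

theorem mem_reps {n : ℕ} {v : V} : v ∈ reps n ↔ nsq v = n := by
  unfold reps
  rw [mem_filter]
  exact ⟨fun h => h.2, fun h => ⟨mem_box h.le, h⟩⟩

/-- primitive representations of `n` -/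
def preps (n : ℕ) : Finset V := (reps n).filter (fun v => IsCoprime v.1 v.2)

theorem mem_preps {n : ℕ} {v : V} : v ∈ preps n ↔ nsq v = n ∧ IsCoprime v.1 v.2 := by
  unfold preps
  rw [mem_filter, mem_reps]

theorem card_preps (n : ℕ) (hn : 0 < n) : (preps n).card ≤ 12 * n.divisors.card := by
  classical
  have hnp : (0 : ℤ) < n := by exact_mod_cast hn
  -- each primitive representation has a root
  have hex : ∀ v : V, ∃ s : ℤ, v ∈ preps n → s ∈ roots n ∧ (n : ℤ) ∣ v.1 - s * v.2 := by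
    intro v
    by_cases hv : v ∈ preps n
    · obtain ⟨h1, h2⟩ := mem_preps.mp hv
      unfold nsq at h1
      have hcop : IsCoprime v.2 (n : ℤ) := by
        rw [← h1]
        have : IsCoprime v.2 (v.1 ^ 2) := h2.symm.pow_right
        have h3 : v.1 ^ 2 + v.2 ^ 2 = v.1 ^ 2 + v.2 * v.2 := by ring
        rw [h3]
        exact (IsCoprime.add_mul_left_right_iff).mpr this
      obtain ⟨p, q, hpq⟩ := hcop
      refine ⟨(v.1 * p) % n, fun _ => ?_⟩
      have e1 : (n : ℤ) ∣ (v.1 * p) % n - v.1 * p := by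
        refine ⟨-(v.1 * p / n), ?_⟩
        have := Int.emod_add_mul_ediv (v.1 * p) n
        linear_combination this
      obtain ⟨k, hk⟩ := e1
      have e2 : (n : ℤ) ∣ v.1 - (v.1 * p) % n * v.2 := by
        refine ⟨v.1 * q - k * v.2, ?_⟩
        linear_combination (-v.2) * hk - v.1 * hpq
      refine ⟨?_, e2⟩
      unfold roots
      rw [mem_filter, Finset.mem_Ico]
      refine ⟨⟨Int.emod_nonneg _ hnp.ne', Int.emod_lt_of_pos _ hnp⟩, ?_⟩
      set s := (v.1 * p) % n with hs
      obtain ⟨l, hl⟩ := e2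
      have hcop2 : IsCoprime (n : ℤ) (v.2 ^ 2) := by
        have : IsCoprime (n : ℤ) v.2 := ⟨q, p, by linear_combination hpq⟩
        exact this.pow_right
      apply hcop2.dvd_of_dvd_mul_right
      refine ⟨1 - l * (v.1 + s * v.2), ?_⟩
      have h5 : v.1 = s * v.2 + n * l := by linear_combination hl
      have h6 : (s ^ 2 + 1) * v.2 ^ 2 = v.1 ^ 2 + v.2 ^ 2 - (v.1 - s * v.2) * (v.1 + s * v.2) := by
        ring
      rw [h6, h1, hl]
      ring
    · exact ⟨0, fun h => absurd h hv⟩
  choose f hf using hex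
  have himg : (preps n).image f ⊆ roots n := by
    intro s hs
    rw [mem_image] at hs
    obtain ⟨v, hv, rfl⟩ := hs
    exact (hf v hv).1
  have hfib : ∀ s ∈ (preps n).image f, ((preps n).filter (fun v => f v = s)).card ≤ 4 := by
    intro s hs
    rw [mem_image] at hs
    obtain ⟨w, hw, rfl⟩ := hs
    obtain ⟨hwr, l, hl⟩ := hf w hw
    have hs2 : (n : ℤ) ∣ f w ^ 2 + 1 := (mem_filter.mp hwr).2
    obtain ⟨m, hm⟩ := hs2
    have hw1 := (mem_preps.mp hw).1
    unfold nsq at hw1
    have hsub : (preps n).filter (fun v => f v = f w) ⊆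
        ({(w.1, w.2), (-w.1, -w.2), (w.2, -w.1), (-w.2, w.1)} : Finset V) := by
      intro v hv
      rw [mem_filter] at hv
      obtain ⟨hv1, hv2⟩ := hv
      obtain ⟨_, l', hl'⟩ := hf v hv1
      rw [hv2] at hl'
      have hvn := (mem_preps.mp hv1).1
      unfold nsq at hvn
      set s := f w with hsdef
      -- the two quotients
      set α := l' * w.2 - l * v.2 with hα
      set β := l' * w.1 + s * v.2 * l + m * v.2 * w.2 with hβ
      have hA : v.1 * w.2 - w.1 * v.2 = n * α := by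
        rw [hα]
        linear_combination w.2 * hl' - v.2 * hl
      have hB : v.1 * w.1 + v.2 * w.2 = n * β := by
        rw [hβ]
        linear_combination w.1 * hl' + s * v.2 * hl + v.2 * w.2 * hm
      have h1 : α ^ 2 + β ^ 2 = 1 := by
        have h2 : (n : ℤ) ^ 2 * (α ^ 2 + β ^ 2) = (n : ℤ) ^ 2 * 1 := by
          calc (n : ℤ) ^ 2 * (α ^ 2 + β ^ 2) = (n * α) ^ 2 + (n * β) ^ 2 := by ring
            _ = (v.1 ^ 2 + v.2 ^ 2) * (w.1 ^ 2 + w.2 ^ 2) := by rw [← hA, ← hB]; ring
            _ = _ := by rw [hvn, hw1]; ring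
        exact mul_left_cancel₀ (pow_ne_zero 2 hnp.ne') h2
      have hx : v.1 = w.1 * β + w.2 * α := by
        have : (n : ℤ) * v.1 = n * (w.1 * β + w.2 * α) := by
          linear_combination (-v.1) * hw1 + w.1 * hB + w.2 * hA
        exact mul_left_cancel₀ hnp.ne' this
      have hy : v.2 = w.2 * β - w.1 * α := by
        have : (n : ℤ) * v.2 = n * (w.2 * β - w.1 * α) := by
          linear_combination (-v.2) * hw1 + w.2 * hB - w.1 * hA
        exact mul_left_cancel₀ hnp.ne' this
      have hα2 : α ^ 2 ≤ 1 := by nlinarith [sq_nonneg β]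
      have hβ2 : β ^ 2 ≤ 1 := by nlinarith [sq_nonneg α]
      have ha1 : α ≤ 1 := by nlinarith
      have ha2 : -1 ≤ α := by nlinarith
      have hb1 : β ≤ 1 := by nlinarith
      have hb2 : -1 ≤ β := by nlinarith
      have hcases : (α = 0 ∧ β = 1) ∨ (α = 0 ∧ β = -1) ∨ (α = 1 ∧ β = 0) ∨
          (α = -1 ∧ β = 0) := by
        have ha : α = -1 ∨ α = 0 ∨ α = 1 := by omega
        have hb : β = -1 ∨ β = 0 ∨ β = 1 := by omega
        rcases ha with h | h | h <;> rcases hb with h' | h' | h' <;>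
          (rw [h, h'] at h1; first | (exfalso; revert h1; norm_num; done) | tauto)
      simp only [mem_insert, mem_singleton]
      rcases hcases with ⟨h3, h4⟩ | ⟨h3, h4⟩ | ⟨h3, h4⟩ | ⟨h3, h4⟩
      · left
        rw [h3, h4] at hx hy
        ext <;> simp [hx, hy]
      · right; left
        rw [h3, h4] at hx hy
        ext <;> simp [hx, hy]
      · right; right; left
        rw [h3, h4] at hx hy
        ext <;> simp [hx, hy]
      · right; right; right
        rw [h3, h4] at hx hy
        ext <;> simp [hx, hy]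
    exact (card_le_card hsub).trans card_le_four
  calc (preps n).card ≤ 4 * ((preps n).image f).card := card_le_mul_card_image (s := preps n) (f := f) 4 hfib
    _ ≤ 4 * (roots n).card := Nat.mul_le_mul_left 4 (card_le_card himg)
    _ ≤ 4 * (3 * n.divisors.card) := Nat.mul_le_mul_left 4 (card_roots n hn)
    _ = 12 * n.divisors.card := by ring

theorem card_div_le {m n : ℕ} (hn : n ≠ 0) (h : m ∣ n) : m.divisors.card ≤ n.divisors.card :=
  card_le_card (Nat.divisors_subset_of_dvd hn h)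

theorem card_reps (n : ℕ) (hn : 0 < n) : (reps n).card ≤ 12 * n.divisors.card ^ 2 := by
  classical
  set f : V → ℕ := fun v => Int.gcd v.1 v.2 with hf
  have hfac : ∀ v ∈ reps n, ∃ w : V, v.1 = w.1 * f v ∧ v.2 = w.2 * f v ∧ IsCoprime w.1 w.2 ∧
      nsq w * (f v : ℤ) ^ 2 = n ∧ 0 < f v := by
    intro v hv
    rw [mem_reps] at hv
    unfold nsq at hv
    have hpos : 0 < f v := by
      apply Nat.pos_of_ne_zero
      intro h
      simp only [hf, Int.gcd_eq_zero_iff] at h
      rw [h.1, h.2] at hv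
      have : (n : ℤ) = 0 := by rw [← hv]; ring
      exact hn.ne' (by exact_mod_cast this)
    obtain ⟨a, b, hab, h1, h2⟩ := Int.exists_gcd_one (m := v.1) (n := v.2) hpos
    refine ⟨(a, b), h1, h2, Int.isCoprime_iff_gcd_eq_one.mpr hab, ?_, hpos⟩
    unfold nsq
    rw [← hv]
    have h3 : v.1 = a * f v := h1
    have h4 : v.2 = b * f v := h2
    calc (a ^ 2 + b ^ 2) * (f v : ℤ) ^ 2 = (a * f v) ^ 2 + (b * f v) ^ 2 := by ring
      _ = v.1 ^ 2 + v.2 ^ 2 := by rw [← h3, ← h4]
  have himg : (reps n).image f ⊆ n.divisors := by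
    intro d hd
    rw [mem_image] at hd
    obtain ⟨v, hv, rfl⟩ := hd
    obtain ⟨w, _, _, _, h4, _⟩ := hfac v hv
    rw [Nat.mem_divisors]
    refine ⟨?_, hn.ne'⟩
    have : ((f v : ℕ) : ℤ) ∣ n := ⟨nsq w * f v, by rw [← h4]; ring⟩
    exact_mod_cast this
  have hfib : ∀ g ∈ (reps n).image f, ((reps n).filter (fun v => f v = g)).card ≤
      12 * n.divisors.card := by
    intro g hg
    have hgd := himg hg
    rw [mem_image] at hg
    obtain ⟨v₀, hv₀, hv₀g⟩ := hg
    obtain ⟨w₀, _, _, _, h4, h5⟩ := hfac v₀ hv₀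
    rw [hv₀g] at h4 h5
    have hm0 : 0 ≤ nsq w₀ := by unfold nsq; positivity
    obtain ⟨m, hm⟩ := Int.eq_ofNat_of_zero_le hm0
    have hmn : m * g ^ 2 = n := by
      have : (m : ℤ) * (g : ℤ) ^ 2 = n := by rw [← h4, hm]
      exact_mod_cast this
    have hmpos : 0 < m := by
      apply Nat.pos_of_ne_zero
      rintro rfl
      rw [zero_mul] at hmn
      exact hn.ne' hmn.symm
    have hsub : (reps n).filter (fun v => f v = g) ⊆
        (preps m).image (fun w : V => ((w.1 * g, w.2 * g) : V)) := by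
      intro v hv
      rw [mem_filter] at hv
      obtain ⟨w, h1, h2, h3, h6, _⟩ := hfac v hv.1
      rw [hv.2] at h1 h2 h6
      rw [mem_image]
      refine ⟨w, ?_, ?_⟩
      · rw [mem_preps]
        refine ⟨?_, h3⟩
        have hg0 : ((g : ℤ) ^ 2) ≠ 0 := pow_ne_zero 2 (by exact_mod_cast h5.ne')
        apply mul_right_cancel₀ hg0
        rw [h6]
        exact_mod_cast hmn.symm
      · ext
        · exact h1.symm
        · exact h2.symm
    calc ((reps n).filter (fun v => f v = g)).card ≤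
          ((preps m).image (fun w : V => ((w.1 * g, w.2 * g) : V))).card := card_le_card hsub
      _ ≤ (preps m).card := card_image_le
      _ ≤ 12 * m.divisors.card := card_preps m hmpos
      _ ≤ 12 * n.divisors.card :=
          Nat.mul_le_mul_left 12 (card_div_le hn.ne' ⟨g ^ 2, hmn.symm⟩)
  calc (reps n).card ≤ (12 * n.divisors.card) * ((reps n).image f).card :=
        card_le_mul_card_image (s := reps n) (f := f) _ hfib
    _ ≤ (12 * n.divisors.card) * n.divisors.card := Nat.mul_le_mul_left _ (card_le_card himg)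
    _ = 12 * n.divisors.card ^ 2 := by ring

/-- primitive vectors whose squared length divides `A` -/
def prim (A : ℕ) : Finset V := A.divisors.biUnion (fun m => preps m)

theorem mem_prim {A : ℕ} (hA : 0 < A) {v : V} :
    v ∈ prim A ↔ nsq v ∣ A ∧ IsCoprime v.1 v.2 := by
  unfold prim
  simp only [mem_biUnion, mem_preps, Nat.mem_divisors]
  constructor
  · rintro ⟨m, ⟨h1, _⟩, h2, h3⟩
    refine ⟨?_, h3⟩
    rw [h2]
    exact_mod_cast h1
  · rintro ⟨h1, h2⟩
    obtain ⟨m, hm⟩ := Int.eq_ofNat_of_zero_le (show 0 ≤ nsq v by unfold nsq; positivity)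
    refine ⟨m, ⟨?_, hA.ne'⟩, hm, h2⟩
    rw [hm] at h1
    exact_mod_cast h1

theorem card_prim (A : ℕ) (hA : 0 < A) : (prim A).card ≤ 12 * A.divisors.card ^ 2 := by
  unfold prim
  calc (A.divisors.biUnion (fun m => preps m)).card ≤ ∑ m ∈ A.divisors, (preps m).card :=
        card_biUnion_le
    _ ≤ ∑ m ∈ A.divisors, 12 * A.divisors.card := by
        apply sum_le_sum
        intro m hm
        have h1 := Nat.mem_divisors.mp hm
        exact (card_preps m (Nat.pos_of_mem_divisors hm)).trans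
          (Nat.mul_le_mul_left 12 (card_div_le hA.ne' h1.1))
    _ = 12 * A.divisors.card ^ 2 := by rw [sum_const, smul_eq_mul]; ring

end

end Pool.Agent.Lib.MP_cd3201_co.TwoSq
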