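import Pool.Agent.Lib.MP_cd3201_co.Int.Proj

/-!
# Integer points in a small grid with few circumradii
-/

set_option autoImplicit false

open Finset

namespace Pool.Agent.Lib.MP_cd3201_co.Upper

open Proj

/-- the points of the plane with coordinates in `{0, …, M}` -/
def InGrid (M : ℕ) (p : Plane) : Prop := ∃ a b : ℕ, a ≤ M ∧ b ≤ M ∧ p 0 = a ∧ p 1 = b

lemma exists_set_nat (n k q : ℕ) (hk : 1 ≤ k) (hq : 1 ≤ q) (hn : n * (k + 2) ≤ q ^ k) :
    ∃ P : Finset Plane, P.card = n ∧ (∀ p ∈ P, InGrid ((k + 2) * (12 * n ^ 4) * q) p) ∧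
      GeneralPosition P ∧ (radii P).ncard ≤ (2 * q) ^ (k + 2) * (2 * q) ^ (k + 2) := by
  classical
  set d := k + 2 with hd
  let G : Finset (Fin d → ℕ) := Fintype.piFinset (fun _ : Fin d => range q)
  have hG : G.card = q ^ d := by simp [G]
  have hmaps : ∀ x ∈ G, ∑ i, x i ^ 2 ∈ range (d * q ^ 2) := by
    intro x hx
    rw [Fintype.mem_piFinset] at hx
    rw [mem_range]
    have h1 : ∀ i, x i ^ 2 < q ^ 2 := by
      intro i
      have := hx i
      rw [mem_range] at this
      exact Nat.pow_lt_pow_left this (by norm_num)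
    have h2 : ∑ i : Fin d, x i ^ 2 < ∑ i : Fin d, q ^ 2 := by
      apply Finset.sum_lt_sum_of_nonempty
      · exact ⟨⟨0, by omega⟩, mem_univ _⟩
      · intro i _; exact h1 i
    simpa using h2
  obtain ⟨R, _, hR⟩ : ∃ R ∈ range (d * q ^ 2),
      q ^ d ≤ (G.filter (fun x => ∑ i, x i ^ 2 = R)).card * (d * q ^ 2) := by
    by_contra hcon
    push Not at hcon
    have h1 : G.card = ∑ R ∈ range (d * q ^ 2), (G.filter (fun x => ∑ i, x i ^ 2 = R)).card :=
      card_eq_sum_card_fiberwise hmaps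
    have hpos : 0 < d * q ^ 2 := by positivity
    have h2 : ∑ R ∈ range (d * q ^ 2),
        (G.filter (fun x => ∑ i, x i ^ 2 = R)).card * (d * q ^ 2) <
        ∑ R ∈ range (d * q ^ 2), q ^ d := by
      apply Finset.sum_lt_sum_of_nonempty
      · exact ⟨0, mem_range.mpr hpos⟩
      · intro R hR; exact hcon R hR
    rw [← sum_mul, ← h1, hG, sum_const, card_range, smul_eq_mul, mul_comm] at h2
    exact lt_irrefl _ h2
  set S := G.filter (fun x => ∑ i, x i ^ 2 = R) with hS
  have hcard : n ≤ S.card := by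
    have h1 : n * ((k + 2) * q ^ 2) ≤ S.card * ((k + 2) * q ^ 2) := by
      calc n * ((k + 2) * q ^ 2) = n * (k + 2) * q ^ 2 := by ring
        _ ≤ q ^ k * q ^ 2 := Nat.mul_le_mul_right _ hn
        _ = q ^ (k + 2) := by rw [← pow_add]
        _ ≤ _ := hR
    exact Nat.le_of_mul_le_mul_right h1 (by positivity)
  obtain ⟨S', hS', hS'n⟩ := exists_subset_card_eq hcard
  have hSq : ∀ x ∈ S', ∀ i, x i < q := by
    intro x hx i
    have h1 := (mem_filter.mp (hS' hx)).1
    rw [Fintype.mem_piFinset] at h1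
    exact mem_range.mp (h1 i)
  obtain ⟨z, hzb, hinj, hgen⟩ := exists_good_projection_nat S' (R := R)
    (fun x hx => (mem_filter.mp (hS' hx)).2)
  rw [hS'n] at hzb
  refine ⟨S'.image (proj (fun i => (z i : ℝ))), ?_, ?_, hgen, ?_⟩
  · rw [card_image_of_injOn hinj, hS'n]
  · intro p hp
    rw [mem_image] at hp
    obtain ⟨x, hx, rfl⟩ := hp
    have hb : ∀ j : Fin 2, ∑ i, z (j, i) * x i ≤ (k + 2) * (12 * n ^ 4) * q := by
      intro j
      calc ∑ i, z (j, i) * x i ≤ ∑ _i : Fin d, (12 * n ^ 4) * q := by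
            apply Finset.sum_le_sum
            intro i _
            exact Nat.mul_le_mul (hzb _) (hSq x hx i).le
        _ = (k + 2) * (12 * n ^ 4) * q := by
            rw [Finset.sum_const, card_univ, Fintype.card_fin, smul_eq_mul, hd]
            ring
    refine ⟨∑ i, z (0, i) * x i, ∑ i, z (1, i) * x i, hb 0, hb 1, ?_, ?_⟩
    · rw [proj_zero]
      push_cast
      rfl
    · rw [proj_one]
      push_cast
      rfl
  · exact ncard_radii_le S' hSq (fun i => (z i : ℝ)) subset_rfl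

lemma add_two_le_two_pow {k : ℕ} (hk : 2 ≤ k) : k + 2 ≤ 2 ^ k := by
  induction k, hk using Nat.le_induction with
  | base => norm_num
  | succ m hm ih => rw [pow_succ]; omega

/-- For `n ≥ e^100` there are `n` points in general position in `{0, …, n⁵}²` with at most
`n² exp(25 √(log n))` circumradii. -/
theorem exists_good_set_nat (n : ℕ) (hn : 100 ≤ Real.log n) :
    ∃ P : Finset Plane, P.card = n ∧ (∀ p ∈ P, InGrid (n ^ 5) p) ∧ GeneralPosition P ∧
      ((radii P).ncard : ℝ) ≤ (n : ℝ) ^ 2 * Real.exp (25 * √(Real.log n)) := by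
  have hnpos : (0 : ℝ) < n := by
    rcases Nat.eq_zero_or_pos n with h | h
    · rw [h] at hn; simp at hn; linarith
    · exact_mod_cast h
  set K := Real.log n with hK
  set s := √K with hs
  have hK1 : 1 ≤ K := by linarith
  have hs2 : s * s = K := Real.mul_self_sqrt (by linarith)
  have hs10 : 10 ≤ s := by
    rw [hs]
    apply Real.le_sqrt_of_sq_le
    linarith
  have hs1 : 1 ≤ s := by linarith
  have hnexp : (n : ℝ) = Real.exp K := (Real.exp_log hnpos).symm
  have hlog2 := Real.log_two_gt_d9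
  have hlog2' := Real.log_two_lt_d9
  set k := ⌈s⌉₊ + 1 with hk
  have hk2 : 2 ≤ k := by
    have : 1 ≤ ⌈s⌉₊ := Nat.one_le_ceil_iff.mpr (by linarith)
    omega
  have hk0 : k ≠ 0 := by omega
  have hsk : s ≤ k := by
    rw [hk]; push_cast
    linarith [Nat.le_ceil s]
  have hks : (k : ℝ) ≤ s + 2 := by
    rw [hk]; push_cast
    linarith [Nat.ceil_lt_add_one (show (0 : ℝ) ≤ s by linarith)]
  have hdk : ((k : ℝ) + 2) ≤ 2 ^ k := by
    have h1 : k + 2 ≤ 2 ^ k := add_two_le_two_pow hk2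
    exact_mod_cast h1
  have hexp2 : (2 : ℝ) ^ k = Real.exp (Real.log 2 * k) := by
    rw [← Real.rpow_natCast, Real.rpow_def_of_pos (by norm_num)]
  set y : ℝ := ((n : ℝ) * (k + 2)) ^ ((k : ℝ)⁻¹) with hy
  have hy0 : 0 < y := by positivity
  have hyk : y ^ k = (n : ℝ) * (k + 2) := by
    rw [hy]; exact Real.rpow_inv_natCast_pow (by positivity) hk0
  have hn1 : (1 : ℝ) ≤ n := by
    rw [hnexp]; exact Real.one_le_exp (by linarith)
  have hy1 : 1 ≤ y := by
    by_contra hcon
    push Not at hcon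
    have h1 : y ^ k ≤ 1 := pow_le_one₀ hy0.le hcon.le
    rw [hyk] at h1
    have : (0 : ℝ) ≤ k := Nat.cast_nonneg k
    nlinarith
  set q := ⌈y⌉₊ with hq
  have hqy : y ≤ q := Nat.le_ceil y
  have hqy2 : (q : ℝ) ≤ 2 * y := by
    have := Nat.ceil_lt_add_one hy0.le
    linarith
  have hq1 : 1 ≤ q := Nat.one_le_ceil_iff.mpr hy0
  have hcond : n * (k + 2) ≤ q ^ k := by
    have h1 : (n : ℝ) * (k + 2) ≤ (q : ℝ) ^ k := by
      rw [← hyk]; exact pow_le_pow_left₀ hy0.le hqy k
    exact_mod_cast h1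
  obtain ⟨P, hPn, hPg, hgen, hrad⟩ := exists_set_nat n k q (by omega) hq1 hcond
  -- `y ≤ exp (1.7 s)`
  have hyexp : y ≤ Real.exp (1.7 * s) := by
    have h2 : y ^ k ≤ (Real.exp (1.7 * s)) ^ k := by
      rw [hyk, ← Real.exp_nat_mul]
      calc (n : ℝ) * (k + 2) ≤ Real.exp K * Real.exp (Real.log 2 * k) := by
            rw [← hnexp, ← hexp2]
            exact mul_le_mul_of_nonneg_left hdk hnpos.le
        _ = Real.exp (K + Real.log 2 * k) := by rw [← Real.exp_add]
        _ ≤ Real.exp (k * (1.7 * s)) := by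
            apply Real.exp_le_exp.mpr
            have e1 : K ≤ k * s := by nlinarith
            have e2 : Real.log 2 * k ≤ 0.7 * (k * s) := by
              have : (0 : ℝ) ≤ k := Nat.cast_nonneg k
              nlinarith
            linarith
    exact le_of_pow_le_pow_left₀ hk0 (Real.exp_pos _).le h2
  -- the size of the grid
  have hgrid : (k + 2) * (12 * n ^ 4) * q ≤ n ^ 5 := by
    have h1 : ((k : ℝ) + 2) * 12 * q ≤ n := by
      have a1 : ((k : ℝ) + 2) * 12 * q ≤ (s + 4) * 12 * (2 * Real.exp (1.7 * s)) := by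
        have b1 : (k : ℝ) + 2 ≤ s + 4 := by linarith
        have b2 : (q : ℝ) ≤ 2 * Real.exp (1.7 * s) := by linarith
        have b3 : ((k : ℝ) + 2) * 12 ≤ (s + 4) * 12 := by linarith
        exact mul_le_mul b3 b2 (by positivity) (by positivity)
      have a2 : 24 * (s + 4) ≤ Real.exp (8 * s) := by
        have b1 : 4 * s + 1 ≤ Real.exp (4 * s) := Real.add_one_le_exp _
        have b2 : Real.exp (8 * s) = Real.exp (4 * s) * Real.exp (4 * s) := by
          rw [← Real.exp_add]; congr 1; ring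
        rw [b2]
        have b3 : (4 * s + 1) * (4 * s + 1) ≤ Real.exp (4 * s) * Real.exp (4 * s) :=
          mul_le_mul b1 b1 (by linarith) (by positivity)
        nlinarith
      calc ((k : ℝ) + 2) * 12 * q ≤ (s + 4) * 12 * (2 * Real.exp (1.7 * s)) := a1
        _ = (24 * (s + 4)) * Real.exp (1.7 * s) := by ring
        _ ≤ Real.exp (8 * s) * Real.exp (1.7 * s) :=
            mul_le_mul_of_nonneg_right a2 (Real.exp_pos _).le
        _ = Real.exp (9.7 * s) := by rw [← Real.exp_add]; congr 1; ring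
        _ ≤ Real.exp K := by
            apply Real.exp_le_exp.mpr
            nlinarith
        _ = n := hnexp.symm
    have h2 : (k + 2) * 12 * q ≤ n := by exact_mod_cast h1
    calc (k + 2) * (12 * n ^ 4) * q = ((k + 2) * 12 * q) * n ^ 4 := by ring
      _ ≤ n * n ^ 4 := Nat.mul_le_mul_right _ h2
      _ = n ^ 5 := by ring
  refine ⟨P, hPn, ?_, hgen, ?_⟩
  · intro p hp
    obtain ⟨a, b, ha, hb, h1, h2⟩ := hPg p hp
    exact ⟨a, b, ha.trans hgrid, hb.trans hgrid, h1, h2⟩
  have hradR : ((radii P).ncard : ℝ) ≤ (2 * (q : ℝ)) ^ (k + 2) * (2 * (q : ℝ)) ^ (k + 2) := by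
    exact_mod_cast hrad
  have hk2exp : ((k : ℝ) + 2) ^ 2 ≤ Real.exp (1.4 * (s + 2)) := by
    calc ((k : ℝ) + 2) ^ 2 ≤ (2 ^ k) ^ 2 := pow_le_pow_left₀ (by positivity) hdk 2
      _ = Real.exp (2 * (Real.log 2 * k)) := by rw [hexp2, ← Real.exp_nat_mul]; norm_num
      _ ≤ Real.exp (1.4 * (s + 2)) := by
          apply Real.exp_le_exp.mpr
          have : (0 : ℝ) ≤ k := Nat.cast_nonneg k
          nlinarith
  have h16 : (16 : ℝ) ^ (k + 2) ≤ Real.exp (2.78 * (s + 4)) := by
    have e1 : (16 : ℝ) ^ (k + 2) = Real.exp (Real.log 16 * ((k + 2 : ℕ) : ℝ)) := by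
      rw [← Real.rpow_natCast, Real.rpow_def_of_pos (by norm_num)]
    have e2 : Real.log 16 = 4 * Real.log 2 := by
      rw [show (16 : ℝ) = 2 ^ 4 by norm_num, Real.log_pow]; norm_num
    rw [e1]
    apply Real.exp_le_exp.mpr
    rw [e2]
    push_cast
    have : (0 : ℝ) ≤ k := Nat.cast_nonneg k
    nlinarith
  have hy4 : y ^ 4 ≤ Real.exp (6.8 * s) := by
    calc y ^ 4 ≤ (Real.exp (1.7 * s)) ^ 4 := pow_le_pow_left₀ hy0.le hyexp 4
      _ = Real.exp (6.8 * s) := by rw [← Real.exp_nat_mul]; congr 1; push_cast; ring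
  calc ((radii P).ncard : ℝ) ≤ (2 * (q : ℝ)) ^ (k + 2) * (2 * (q : ℝ)) ^ (k + 2) := hradR
    _ ≤ (4 * y) ^ (k + 2) * (4 * y) ^ (k + 2) := by
        have h3 : (2 * (q : ℝ)) ^ (k + 2) ≤ (4 * y) ^ (k + 2) :=
          pow_le_pow_left₀ (by positivity) (by linarith) _
        exact mul_le_mul h3 h3 (by positivity) (by positivity)
    _ = 16 ^ (k + 2) * ((y ^ k) ^ 2 * y ^ 4) := by
        rw [← mul_pow, show 4 * y * (4 * y) = 16 * y ^ 2 by ring, mul_pow]; ring
    _ = 16 ^ (k + 2) * ((n : ℝ) ^ 2 * ((k : ℝ) + 2) ^ 2 * y ^ 4) := by rw [hyk]; ring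
    _ = (n : ℝ) ^ 2 * (16 ^ (k + 2) * ((k : ℝ) + 2) ^ 2 * y ^ 4) := by ring
    _ ≤ (n : ℝ) ^ 2 * (Real.exp (2.78 * (s + 4)) * Real.exp (1.4 * (s + 2)) *
          Real.exp (6.8 * s)) := by
        apply mul_le_mul_of_nonneg_left _ (by positivity)
        apply mul_le_mul _ hy4 (by positivity) (by positivity)
        exact mul_le_mul h16 hk2exp (by positivity) (by positivity)
    _ = (n : ℝ) ^ 2 * Real.exp (2.78 * (s + 4) + 1.4 * (s + 2) + 6.8 * s) := by
        rw [← Real.exp_add, ← Real.exp_add]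
    _ ≤ (n : ℝ) ^ 2 * Real.exp (25 * s) := by
        apply mul_le_mul_of_nonneg_left _ (by positivity)
        apply Real.exp_le_exp.mpr
        norm_num; linarith

end Pool.Agent.Lib.MP_cd3201_co.Upper
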